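import Pool.Agent.Helper77.PPS.Goals

/-!
# Packet PPS-P_LOW (MP_fc6b1e_nt)
-/

namespace Pool.Agent.Helper54.PPS

open Finset Real Pool.Agent.Helper77.PPS

theorem exp_le_two {t : ℝ} (h0 : 0 ≤ t) (h1 : t ≤ 1) : exp t ≤ 1 + 2 * t := by
  have h := Real.abs_exp_sub_one_sub_id_le (x := t) (by rw [abs_of_nonneg h0]; exact h1)
  have h2 := (abs_le.mp h).2
  nlinarith

theorem exp_sub_sq_le {t : ℝ} (h0 : 0 ≤ t) : exp (t - t ^ 2) ≤ 1 + t := by
  have h := Real.one_sub_le_exp_neg (t - t ^ 2)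
  have hpos : 0 < 1 - (t - t ^ 2) := by nlinarith [sq_nonneg (t - 1 / 2)]
  rw [Real.exp_neg] at h
  have he := Real.exp_pos (t - t ^ 2)
  have h2 : exp (t - t ^ 2) * (1 - (t - t ^ 2)) ≤ 1 := by
    calc exp (t - t ^ 2) * (1 - (t - t ^ 2)) ≤ exp (t - t ^ 2) * (exp (t - t ^ 2))⁻¹ :=
          mul_le_mul_of_nonneg_left h he.le
      _ = 1 := mul_inv_cancel₀ he.ne'
  have h3 : 1 ≤ (1 + t) * (1 - (t - t ^ 2)) := by
    have : (1 + t) * (1 - (t - t ^ 2)) = 1 + t ^ 3 := by ring
    rw [this]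
    have : 0 ≤ t ^ 3 := by positivity
    linarith
  exact le_of_mul_le_mul_right (h2.trans h3) hpos

variable {P : Type} {N : P → ℕ}

theorem wt_div (f : P → ℝ) (m : Finset P) :
    wt f m / (nb N m : ℝ) = ∏ q ∈ m, f q / N q := by
  unfold wt nb
  rw [Nat.cast_prod, Finset.prod_div_distrib]

theorem sum_div (f : P → ℝ) (Q : Finset P) :
    ∑ m ∈ Q.powerset, wt f m / (nb N m : ℝ) = ∏ q ∈ Q, (1 + f q / N q) := by
  rw [Finset.prod_one_add]
  exact Finset.sum_congr rfl fun m _ ↦ wt_div f m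

theorem wt_nonneg {f : P → ℝ} (hf : ∀ q, 0 ≤ f q) (m : Finset P) : 0 ≤ wt f m :=
  Finset.prod_nonneg fun q _ ↦ hf q

theorem nb_pos {C : ℝ} (hS : PSys N C) (m : Finset P) : 1 ≤ nb N m :=
  Nat.one_le_iff_ne_zero.mpr (Finset.prod_ne_zero_iff.mpr fun q _ ↦ by
    have := hS.two q; omega)

/-- the product bound in (i) -/
theorem prod_bound {C A C₂ z : ℝ} (hS : PSys N C) {f : P → ℝ} (hf : ∀ q, 0 ≤ f q ∧ f q ≤ A)
    (hA : 0 ≤ A) (hz : 2 ≤ z)
    (h3 : ∑ q ∈ pr N z, log (N q) / N q ≤ C₂ * log z) :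
    ∏ q ∈ pr N z, (1 + f q / N q * exp (1 / log z * log (N q))) ≤
      (∏ q ∈ pr N z, (1 + f q / N q)) * exp (2 * A * C₂) := by
  have hlz : 0 < log z := log_pos (by linarith)
  have h1 : ∀ q ∈ pr N z, 1 + f q / N q * exp (1 / log z * log (N q)) ≤
      (1 + f q / N q) * exp (2 * A * (1 / log z) * (log (N q) / N q)) := by
    intro q hq
    have hq' : (N q : ℝ) ≤ z := (mem_pr hS).mp hq
    have hN2 : (2 : ℝ) ≤ N q := by exact_mod_cast hS.two q
    have hN : (0 : ℝ) < N q := by linarith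
    have hlN : 0 ≤ log (N q) := log_nonneg (by linarith)
    have ht0 : 0 ≤ 1 / log z * log (N q) := by positivity
    have ht1 : 1 / log z * log (N q) ≤ 1 := by
      rw [one_div, inv_mul_le_iff₀ hlz, mul_one]
      exact log_le_log hN hq'
    have hfN : 0 ≤ f q / N q := div_nonneg (hf q).1 hN.le
    have e1 := exp_le_two ht0 ht1
    set t := 1 / log z * log (N q) with ht
    have e2 : 1 + f q / N q * exp t ≤ (1 + f q / N q) * (1 + 2 * t * (f q / N q)) := by
      have := mul_le_mul_of_nonneg_left e1 hfN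
      have h4 : 0 ≤ f q / N q * (2 * t * (f q / N q)) := by positivity
      nlinarith
    refine e2.trans (mul_le_mul_of_nonneg_left ?_ (by linarith))
    have e3 : 2 * t * (f q / N q) ≤ 2 * A * (1 / log z) * (log (N q) / N q) := by
      have : 2 * A * (1 / log z) * (log (N q) / N q) = 2 * t * (A / N q) := by
        rw [ht]; ring
      rw [this]
      exact mul_le_mul_of_nonneg_left (div_le_div_of_nonneg_right (hf q).2 hN.le) (by linarith)
    have e4 := Real.add_one_le_exp (2 * A * (1 / log z) * (log (N q) / N q))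
    linarith
  have h0 : ∀ q ∈ pr N z, 0 ≤ 1 + f q / N q * exp (1 / log z * log (N q)) := by
    intro q _
    have := (hf q).1
    positivity
  refine (Finset.prod_le_prod h0 h1).trans ?_
  rw [Finset.prod_mul_distrib]
  refine mul_le_mul_of_nonneg_left ?_ (Finset.prod_nonneg fun q _ ↦ by
    have := (hf q).1
    positivity)
  rw [← Real.exp_sum, ← Finset.mul_sum]
  apply Real.exp_le_exp.mpr
  calc 2 * A * (1 / log z) * ∑ q ∈ pr N z, log (N q) / N q
      ≤ 2 * A * (1 / log z) * (C₂ * log z) :=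
        mul_le_mul_of_nonneg_left h3 (by positivity)
    _ = 2 * A * C₂ := by field_simp

/-- (i): the small `m` carry half of the sum -/
theorem small_sum {C A C₂ z Y T : ℝ} (hS : PSys N C) {f : P → ℝ} (hf : ∀ q, 0 ≤ f q ∧ f q ≤ A)
    (hA : 0 ≤ A) (hz : 2 ≤ z) (hY : 0 < Y)
    (hT : 2 * A * C₂ + 1 ≤ T) (hzY : T * log z ≤ log Y)
    (h3 : ∑ q ∈ pr N z, log (N q) / N q ≤ C₂ * log z) :
    (∏ q ∈ pr N z, (1 + f q / N q)) / 2 ≤
      ∑ m ∈ (pr N z).powerset.filter (fun m ↦ (nb N m : ℝ) ≤ Y), wt f m / (nb N m : ℝ) := by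
  have hlz : 0 < log z := log_pos (by linarith)
  set D := ∏ q ∈ pr N z, (1 + f q / N q) with hD
  have hD0 : 0 ≤ D := Finset.prod_nonneg fun q _ ↦ by
    have := (hf q).1
    positivity
  have hsplit := Finset.sum_filter_add_sum_filter_not (pr N z).powerset
    (fun m ↦ (nb N m : ℝ) ≤ Y) (fun m ↦ wt f m / (nb N m : ℝ))
  rw [sum_div] at hsplit
  have hlarge : ∑ m ∈ (pr N z).powerset.filter (fun m ↦ ¬ (nb N m : ℝ) ≤ Y),
      wt f m / (nb N m : ℝ) ≤ D / 2 := by
    have h1 : ∀ m ∈ (pr N z).powerset.filter (fun m ↦ ¬ (nb N m : ℝ) ≤ Y),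
        wt f m / (nb N m : ℝ) ≤
          exp (-T) * ∏ q ∈ m, (f q / N q * exp (1 / log z * log (N q))) := by
      intro m hm
      have hmY : Y < (nb N m : ℝ) := not_le.mp (Finset.mem_filter.mp hm).2
      rw [Finset.prod_mul_distrib, ← wt_div, ← Real.exp_sum, ← Finset.mul_sum]
      have hlog : ∑ q ∈ m, log (N q : ℝ) = log (nb N m) := by
        unfold nb
        rw [Nat.cast_prod, Real.log_prod]
        intro q _
        have := hS.two q
        have : (N q : ℝ) ≠ 0 := by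
          have : N q ≠ 0 := by omega
          exact_mod_cast this
        exact this
      rw [hlog]
      have hw : 0 ≤ wt f m / (nb N m : ℝ) :=
        div_nonneg (wt_nonneg (fun q ↦ (hf q).1) m) (Nat.cast_nonneg _)
      have h2 : 1 ≤ exp (-T) * exp (1 / log z * log (nb N m)) := by
        rw [← Real.exp_add, Real.one_le_exp_iff]
        have h4 : T ≤ 1 / log z * log (nb N m) := by
          rw [one_div, le_inv_mul_iff₀ hlz]
          have := log_le_log hY hmY.le
          linarith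
        linarith
      calc wt f m / (nb N m : ℝ) = wt f m / (nb N m : ℝ) * 1 := (mul_one _).symm
        _ ≤ wt f m / (nb N m : ℝ) * (exp (-T) * exp (1 / log z * log (nb N m))) :=
            mul_le_mul_of_nonneg_left h2 hw
        _ = exp (-T) * (wt f m / (nb N m : ℝ) * exp (1 / log z * log (nb N m))) := by ring
    calc ∑ m ∈ (pr N z).powerset.filter (fun m ↦ ¬ (nb N m : ℝ) ≤ Y), wt f m / (nb N m : ℝ)
        ≤ ∑ m ∈ (pr N z).powerset.filter (fun m ↦ ¬ (nb N m : ℝ) ≤ Y),
          exp (-T) * ∏ q ∈ m, (f q / N q * exp (1 / log z * log (N q))) :=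
          Finset.sum_le_sum h1
      _ ≤ ∑ m ∈ (pr N z).powerset,
          exp (-T) * ∏ q ∈ m, (f q / N q * exp (1 / log z * log (N q))) := by
          refine Finset.sum_le_sum_of_subset_of_nonneg (Finset.filter_subset _ _) fun m _ _ ↦ ?_
          refine mul_nonneg (exp_pos _).le (Finset.prod_nonneg fun q _ ↦ ?_)
          have := (hf q).1
          positivity
      _ = exp (-T) * ∏ q ∈ pr N z, (1 + f q / N q * exp (1 / log z * log (N q))) := by
          rw [← Finset.mul_sum, Finset.prod_one_add]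
      _ ≤ exp (-T) * (D * exp (2 * A * C₂)) :=
          mul_le_mul_of_nonneg_left (prod_bound hS hf hA hz h3) (exp_pos _).le
      _ = D * exp (-T + 2 * A * C₂) := by rw [Real.exp_add]; ring
      _ ≤ D * (1 / 2) := by
          refine mul_le_mul_of_nonneg_left ?_ hD0
          have h5 : exp (-T + 2 * A * C₂) ≤ exp (-1) := Real.exp_le_exp.mpr (by linarith)
          refine h5.trans ?_
          rw [Real.exp_neg, one_div]
          apply inv_anti₀ (by norm_num)
          have := Real.add_one_le_exp 1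
          linarith
      _ = D / 2 := by ring
  have := hsplit
  rw [← hD] at this
  linarith

/-- (ii), first half -/
theorem prod_lower {C A C₃ z : ℝ} (hS : PSys N C) {f : P → ℝ} (hf : ∀ q, 0 ≤ f q ∧ f q ≤ A)
    (hsum : Summable fun q ↦ (N q : ℝ) ^ (-2 : ℝ)) (h2 : ∑' q, (N q : ℝ) ^ (-2 : ℝ) ≤ C₃) :
    exp (ms N f z - A ^ 2 * C₃) ≤ ∏ q ∈ pr N z, (1 + f q / N q) := by
  have h1 : ∏ q ∈ pr N z, exp (f q / N q - (f q / N q) ^ 2) ≤
      ∏ q ∈ pr N z, (1 + f q / N q) := by
    refine Finset.prod_le_prod (fun q _ ↦ (exp_pos _).le) fun q _ ↦ exp_sub_sq_le ?_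
    exact div_nonneg (hf q).1 (Nat.cast_nonneg _)
  refine le_trans ?_ h1
  rw [← Real.exp_sum, Finset.sum_sub_distrib]
  apply Real.exp_le_exp.mpr
  have h3 : ∑ q ∈ pr N z, (f q / N q) ^ 2 ≤ A ^ 2 * C₃ := by
    calc ∑ q ∈ pr N z, (f q / N q) ^ 2 ≤ ∑ q ∈ pr N z, A ^ 2 * (N q : ℝ) ^ (-2 : ℝ) := by
          refine Finset.sum_le_sum fun q _ ↦ ?_
          have hN : (0 : ℝ) < N q := by
            have := hS.two q
            have : 0 < N q := by omega
            exact_mod_cast this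
          have e1 : (N q : ℝ) ^ (-2 : ℝ) = ((N q : ℝ) ^ 2)⁻¹ := by
            rw [Real.rpow_neg hN.le]
            congr 1
            exact_mod_cast Real.rpow_natCast (N q : ℝ) 2
          rw [e1, div_pow, div_eq_mul_inv]
          refine mul_le_mul_of_nonneg_right ?_ (by positivity)
          exact pow_le_pow_left₀ (hf q).1 (hf q).2 2
      _ = A ^ 2 * ∑ q ∈ pr N z, (N q : ℝ) ^ (-2 : ℝ) := by rw [Finset.mul_sum]
      _ ≤ A ^ 2 * C₃ := by
          refine mul_le_mul_of_nonneg_left ?_ (sq_nonneg _)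
          refine le_trans (hsum.sum_le_tsum (pr N z) fun q _ ↦ ?_) h2
          exact Real.rpow_nonneg (Nat.cast_nonneg _) _
  have h4 : ms N f z = ∑ q ∈ pr N z, f q / N q := rfl
  linarith

/-- (ii), second half -/
theorem ms_lower {C A C₂ z x E : ℝ} (hS : PSys N C) {f : P → ℝ} (hf : ∀ q, 0 ≤ f q ∧ f q ≤ A)
    (hA : 0 ≤ A) (hzx : z ≤ x) (h4 : mw N (fun _ ↦ 1) z x ≤ C₂ * E) :
    ms N f x - A * C₂ * E ≤ ms N f z := by
  classical
  have h1 : ms N f x = ms N f z + mw N f z x := by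
    unfold ms mw
    have hs := Finset.sum_filter_add_sum_filter_not (pr N x) (fun q ↦ z < (N q : ℝ))
      (fun q ↦ f q / N q)
    have he : (pr N x).filter (fun q ↦ ¬ z < (N q : ℝ)) = pr N z := by
      ext q
      rw [Finset.mem_filter, mem_pr hS, mem_pr hS, not_lt]
      exact ⟨fun h ↦ h.2, fun h ↦ ⟨h.trans hzx, h⟩⟩
    rw [he] at hs
    linarith
  have h2 : mw N f z x ≤ A * mw N (fun _ ↦ 1) z x := by
    unfold mw
    rw [Finset.mul_sum]
    refine Finset.sum_le_sum fun q _ ↦ ?_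
    rw [mul_one_div]
    exact div_le_div_of_nonneg_right (hf q).2 (Nat.cast_nonneg _)
  have h3 := mul_le_mul_of_nonneg_left h4 hA
  rw [h1]
  linarith

/-- (iii) -/
theorem comb {C A c₀ B x₀ X Y z : ℝ} (hS : PSys N C) {f : P → ℝ} (hf : ∀ q, 0 ≤ f q ∧ f q ≤ A)
    (hB : 1 ≤ B) (hX : 1 < X) (hY : Y ^ 3 = X) (hY1 : 1 ≤ Y) (hzX : z ≤ X)
    (hYB : B ^ 2 ≤ Y) (hYx : B * x₀ ≤ Y)
    (hch : ∀ x : ℝ, x₀ ≤ x →
      c₀ * x ≤ ∑ q ∈ (pr N (B * x)).filter (fun q ↦ x / B < N q), f q * log (N q)) :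
    c₀ / B * (X / log X) *
      ∑ m ∈ (pr N z).powerset.filter (fun m ↦ (nb N m : ℝ) ≤ Y), wt f m / (nb N m : ℝ) ≤
      ∑ b ∈ (pr N X).powerset.filter (fun b ↦ (nb N b : ℝ) ≤ X), wt f b := by
  classical
  have hB0 : 0 < B := by linarith
  have hlX : 0 < log X := log_pos hX
  have hY0 : 0 < Y := by linarith
  set M := (pr N z).powerset.filter (fun m ↦ (nb N m : ℝ) ≤ Y) with hM
  set S : Finset P → Finset P := fun m ↦
    (pr N (B * (X / (B * nb N m)))).filter (fun q ↦ X / (B * nb N m) / B < N q) with hSd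
  have hnb : ∀ m : Finset P, (0 : ℝ) < nb N m := fun m ↦ by
    have := nb_pos hS m
    exact_mod_cast this
  have hnb1 : ∀ m : Finset P, (1 : ℝ) ≤ nb N m := fun m ↦ by exact_mod_cast nb_pos hS m
  -- facts on the members
  have hSm : ∀ m ∈ M, ∀ q ∈ S m, Y < (N q : ℝ) ∧ (N q : ℝ) * nb N m ≤ X := by
    intro m hm q hq
    have hmY : (nb N m : ℝ) ≤ Y := (Finset.mem_filter.mp hm).2
    rw [hSd] at hq
    obtain ⟨hq1, hq2⟩ := Finset.mem_filter.mp hq
    rw [mem_pr hS] at hq1
    have e1 : B * (X / (B * nb N m)) = X / nb N m := by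
      have := (hnb m).ne'
      field_simp
    rw [e1, le_div_iff₀ (hnb m)] at hq1
    refine ⟨lt_of_le_of_lt ?_ hq2, hq1⟩
    rw [div_div, le_div_iff₀ (by have := hnb m; positivity)]
    calc Y * (B * nb N m * B) = Y * (B ^ 2 * nb N m) := by ring
      _ ≤ Y * (Y * Y) := by
          refine mul_le_mul_of_nonneg_left ?_ hY0.le
          exact mul_le_mul hYB hmY (hnb m).le hY0.le
      _ = X := by rw [← hY]; ring
  have hmem : ∀ m : Finset P, ∀ q ∈ m, (N q : ℝ) ≤ nb N m := by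
    intro m q hq
    have : N q ≤ nb N m := Nat.le_of_dvd (nb_pos hS m) (Finset.dvd_prod_of_mem N hq)
    exact_mod_cast this
  have hnot : ∀ m ∈ M, ∀ q ∈ S m, q ∉ m := by
    intro m hm q hq hqm
    have h1 := (hSm m hm q hq).1
    have h2 := hmem m q hqm
    have h3 : (nb N m : ℝ) ≤ Y := (Finset.mem_filter.mp hm).2
    linarith
  -- the inner sum
  have hin : ∀ m ∈ M, c₀ / B * (X / log X) * (1 / (nb N m : ℝ)) ≤ ∑ q ∈ S m, f q := by
    intro m hm
    have hmY : (nb N m : ℝ) ≤ Y := (Finset.mem_filter.mp hm).2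
    have hx : x₀ ≤ X / (B * nb N m) := by
      rw [le_div_iff₀ (by have := hnb m; positivity)]
      by_cases hx0 : 0 ≤ x₀
      · calc x₀ * (B * nb N m) = (B * x₀) * nb N m := by ring
          _ ≤ Y * Y := mul_le_mul hYx hmY (hnb m).le hY0.le
          _ ≤ Y ^ 3 := by nlinarith [mul_pos hY0 hY0]
          _ = X := hY
      · have : x₀ * (B * nb N m) ≤ 0 :=
          mul_nonpos_of_nonpos_of_nonneg (not_le.mp hx0).le (by have := hnb m; positivity)
        linarith
    have h1 := hch _ hx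
    have h2 : ∑ q ∈ S m, f q * log (N q) ≤ (∑ q ∈ S m, f q) * log X := by
      rw [Finset.sum_mul]
      refine Finset.sum_le_sum fun q hq ↦ mul_le_mul_of_nonneg_left ?_ (hf q).1
      have h3 := (hSm m hm q hq).2
      have h4 : (2 : ℝ) ≤ N q := by exact_mod_cast hS.two q
      refine log_le_log (by linarith) ?_
      have := hnb1 m
      nlinarith
    have h3 : c₀ * (X / (B * nb N m)) ≤ (∑ q ∈ S m, f q) * log X := h1.trans h2
    have e1 : c₀ / B * (X / log X) * (1 / (nb N m : ℝ)) = c₀ * (X / (B * nb N m)) / log X := by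
      have := (hnb m).ne'
      field_simp
    rw [e1, div_le_iff₀ hlX]
    exact h3
  -- the pairs
  have hinj : Set.InjOn (fun x : (Σ _ : Finset P, P) ↦ insert x.2 x.1) (M.sigma S) := by
    rintro ⟨m, q⟩ h ⟨m', q'⟩ h' heq
    rw [Finset.mem_coe, Finset.mem_sigma] at h h'
    simp only at h h' heq
    have a1 := (hSm m h.1 q h.2).1
    have a2 := (hSm m' h'.1 q' h'.2).1
    have b1 : ∀ r ∈ m, (N r : ℝ) ≤ Y := fun r hr ↦
      (hmem m r hr).trans (Finset.mem_filter.mp h.1).2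
    have b2 : ∀ r ∈ m', (N r : ℝ) ≤ Y := fun r hr ↦
      (hmem m' r hr).trans (Finset.mem_filter.mp h'.1).2
    have hqq : q = q' := by
      have : q ∈ insert q' m' := heq ▸ Finset.mem_insert_self q m
      rcases Finset.mem_insert.mp this with h1 | h1
      · exact h1
      · exact absurd (b2 q h1) (not_le.mpr a1)
    subst hqq
    have hmm : m = m' := by
      rw [← Finset.erase_insert (hnot m h.1 q h.2), ← Finset.erase_insert (hnot m' h'.1 q h'.2),
        heq]
    rw [hmm]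
  calc c₀ / B * (X / log X) * ∑ m ∈ M, wt f m / (nb N m : ℝ)
      = ∑ m ∈ M, wt f m * (c₀ / B * (X / log X) * (1 / (nb N m : ℝ))) := by
        rw [Finset.mul_sum]
        exact Finset.sum_congr rfl fun m _ ↦ by ring
    _ ≤ ∑ m ∈ M, wt f m * ∑ q ∈ S m, f q :=
        Finset.sum_le_sum fun m hm ↦
          mul_le_mul_of_nonneg_left (hin m hm) (wt_nonneg (fun q ↦ (hf q).1) m)
    _ = ∑ m ∈ M, ∑ q ∈ S m, wt f (insert q m) := by
        refine Finset.sum_congr rfl fun m hm ↦ ?_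
        rw [Finset.mul_sum]
        refine Finset.sum_congr rfl fun q hq ↦ ?_
        unfold wt
        rw [Finset.prod_insert (hnot m hm q hq), mul_comm]
    _ = ∑ x ∈ M.sigma S, wt f (insert x.2 x.1) := by rw [Finset.sum_sigma]
    _ = ∑ b ∈ (M.sigma S).image (fun x : (Σ _ : Finset P, P) ↦ insert x.2 x.1), wt f b := by
        rw [Finset.sum_image hinj]
    _ ≤ ∑ b ∈ (pr N X).powerset.filter (fun b ↦ (nb N b : ℝ) ≤ X), wt f b := by
        refine Finset.sum_le_sum_of_subset_of_nonneg ?_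
          fun b _ _ ↦ wt_nonneg (fun q ↦ (hf q).1) b
        intro b hb
        obtain ⟨⟨m, q⟩, hmq, rfl⟩ := Finset.mem_image.mp hb
        rw [Finset.mem_sigma] at hmq
        simp only at hmq ⊢
        obtain ⟨hm, hq⟩ := hmq
        have h1 := (hSm m hm q hq).2
        have hnbi : (nb N (insert q m) : ℝ) = N q * nb N m := by
          unfold nb
          rw [Finset.prod_insert (hnot m hm q hq)]
          push_cast
          ring
        rw [Finset.mem_filter, Finset.mem_powerset]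
        refine ⟨?_, by rw [hnbi]; exact h1⟩
        intro r hr
        rw [mem_pr hS]
        rcases Finset.mem_insert.mp hr with h2 | h2
        · subst h2
          have := hnb1 m
          have h4 : (0 : ℝ) ≤ N r := Nat.cast_nonneg _
          nlinarith
        · have h5 := Finset.mem_powerset.mp (Finset.mem_filter.mp hm).1 h2
          rw [mem_pr hS] at h5
          exact h5.trans hzX

theorem p_low (h1 : Pool.Agent.Helper77.PPS.P_CNT) (h2 : Pool.Agent.Helper77.PPS.P_TAI) :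
    Pool.Agent.Helper77.PPS.P_LOW := by
  intro P N C A' hS f hf' hCh
  obtain ⟨c₀, B, x₀, hc₀, hB, hch⟩ := hCh
  set A := max A' 0 with hAd
  have hA : 0 ≤ A := le_max_right _ _
  have hf : ∀ q, 0 ≤ f q ∧ f q ≤ A := fun q ↦ ⟨(hf' q).1, (hf' q).2.trans (le_max_left _ _)⟩
  obtain ⟨C₂, hC₂, hcnt⟩ := h1 C
  obtain ⟨C₃, hC₃, htai⟩ := h2 C
  obtain ⟨-, -, h3, h4⟩ := hcnt P N hS
  obtain ⟨t1, t2, -⟩ := htai P N hS
  have hsum := t1 2 (by norm_num)
  set T := 2 * A * C₂ + 1 with hT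
  have hT1 : 1 ≤ T := by have : 0 ≤ 2 * A * C₂ := by positivity
                         linarith
  have hT0 : 0 < T := by linarith
  set η := 1 / (3 * T) with hη
  have hη0 : 0 < η := by positivity
  have hη1 : η ≤ 1 := by
    rw [hη, div_le_one (by positivity)]
    linarith
  set c₂ := exp (-(A * C₂ * (-log η + 1 / log 2)) - A ^ 2 * C₃) with hc₂
  have hev : ∀ᶠ X : ℝ in Filter.atTop, 1 < X ∧ B ^ 2 ≤ X ^ (1 / 3 : ℝ) ∧
      B * x₀ ≤ X ^ (1 / 3 : ℝ) ∧ 2 ≤ X ^ η := by
    have e1 := tendsto_rpow_atTop (y := (1 / 3 : ℝ)) (by norm_num)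
    have e2 := tendsto_rpow_atTop (y := η) hη0
    filter_upwards [Filter.eventually_gt_atTop (1 : ℝ), e1.eventually_ge_atTop (B ^ 2),
      e1.eventually_ge_atTop (B * x₀), e2.eventually_ge_atTop 2] with X a b c d
    exact ⟨a, b, c, d⟩
  obtain ⟨X₀, hX₀⟩ := Filter.eventually_atTop.mp hev
  refine ⟨c₀ / B * (c₂ / 2), X₀, by positivity, fun X hX ↦ ?_⟩
  obtain ⟨hX1, hXB, hXx, hXη⟩ := hX₀ X hX
  have hX0 : 0 < X := by linarith
  have hlX : 0 < log X := log_pos hX1
  set Y := X ^ (1 / 3 : ℝ) with hYd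
  set z := X ^ η with hzd
  have hY3 : Y ^ 3 = X := by
    rw [hYd, ← Real.rpow_natCast, ← Real.rpow_mul hX0.le]
    norm_num
  have hY1 : 1 ≤ Y := Real.one_le_rpow hX1.le (by norm_num)
  have hY0 : 0 < Y := by linarith
  have hlY : log Y = 1 / 3 * log X := Real.log_rpow hX0 _
  have hlz : log z = η * log X := Real.log_rpow hX0 _
  have hzX : z ≤ X := by
    have := Real.rpow_le_rpow_of_exponent_le hX1.le hη1
    rwa [Real.rpow_one] at this
  have hTz : T * log z ≤ log Y := by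
    rw [hlz, hlY, hη]
    apply le_of_eq
    field_simp
  have s1 := small_sum hS hf hA hXη hY0 (le_of_eq hT.symm) hTz (h3 z hXη)
  have s2 := prod_lower (z := z) hS hf hsum t2
  have s3 := ms_lower hS hf hA hzX (h4 z X hXη hzX)
  have s4 := comb (z := z) hS hf hB hX1 hY3 hY1 hzX hXB hXx hch
  have hE : log (log X) - log (log z) + 1 / log z ≤ -log η + 1 / log 2 := by
    have e1 : log (log z) = log η + log (log X) := by
      rw [hlz, Real.log_mul hη0.ne' hlX.ne']
    have e2 : 1 / log z ≤ 1 / log 2 :=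
      one_div_le_one_div_of_le (log_pos (by norm_num)) (log_le_log (by norm_num) hXη)
    rw [e1]
    linarith
  have s5 : c₂ * exp (ms N f X) ≤ ∏ q ∈ pr N z, (1 + f q / N q) := by
    refine le_trans ?_ s2
    rw [hc₂, ← Real.exp_add]
    apply Real.exp_le_exp.mpr
    have := mul_le_mul_of_nonneg_left hE (mul_nonneg hA hC₂.le)
    linarith
  have hmag : c₀ / B * (c₂ / 2) * mag N f X =
      c₀ / B * (X / log X) * (c₂ * exp (ms N f X) / 2) := by
    unfold mag
    ring
  rw [hmag]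
  refine le_trans (mul_le_mul_of_nonneg_left ?_ (by positivity)) s4
  linarith

end Pool.Agent.Helper54.PPS
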